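import Pool.Agent.H.MP_eaea0b_co.G

set_option autoImplicit false
open Finset Matrix Equiv

namespace Pool.Agent.Results.MP_eaea0b_co.Yes

variable {V E : Type} (s t : E → V)

/-- Initial vertex of an oriented edge: `(e, true)` goes from `s e` to `t e`, `(e, false)` back. -/
def tail (a : E × Bool) : V := if a.2 then s a.1 else t a.1

/-- The reversed orientation. -/
def rev (a : E × Bool) : E × Bool := (a.1, !a.2)

/-- Terminal vertex of an oriented edge. -/
def head (a : E × Bool) : V := tail s t (rev a)

/-- Adjacency matrix: number of oriented edges from `u` to `v`. -/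
def adjG [Fintype E] [DecidableEq V] : Matrix V V ℝ :=
  of fun u v => (#{a | tail s t a = u ∧ head s t a = v} : ℝ)

/-- Adjacency matrix of the covering given by `σ`. -/
def adjH [Fintype E] [DecidableEq V] {r : ℕ} (σ : E × Bool → Perm (Fin r)) :
    Matrix (V × Fin r) (V × Fin r) ℝ :=
  of fun p q => ∑ a with tail s t a = p.1 ∧ head s t a = q.1, (σ a).permMatrix ℝ p.2 q.2

/-- Endpoint of a walk starting at `o` (the last step is the first list entry). -/
def endp (o : V) : List (E × Bool) → V
  | [] => o
  | a :: _ => head s t a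

/-- Non-backtracking walks starting at `o`. -/
def NB (o : V) : List (E × Bool) → Prop
  | [] => True
  | a :: w => NB o w ∧ tail s t a = endp s t o w ∧ w.head? ≠ some (rev a)

/-- Vertices of the universal covering tree. -/
abbrev T (o : V) := {w // NB s t o w}

/-- Adjacency in the universal covering tree. -/
def TAdj (o : V) (w w' : T s t o) : Prop := ∃ a, w'.1 = a :: w.1 ∨ w.1 = a :: w'.1

/-- Bounded operators on a complex normed space. -/
abbrev Op (H : Type) [NormedAddCommGroup H] [NormedSpace ℂ H] := H →L[ℂ] H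

/-- Value of an operator at a vector. -/
def app {H : Type} [NormedAddCommGroup H] [NormedSpace ℂ H] (A : Op H) (f : H) : H := A f

/-- Spectral radius of a bounded operator. -/
noncomputable def rad {H : Type} [NormedAddCommGroup H] [NormedSpace ℂ H] (A : Op H) : ENNReal :=
  spectralRadius ℂ A

/-- Square summable complex functions. -/
noncomputable abbrev L2 (N : Type) := lp (fun _ : N => ℂ) 2

/-- `A` is the adjacency operator of the adjacency relation `R`. -/
def IsAdjOp {N : Type} (R : N → N → Prop) (A : Op (L2 N)) : Prop :=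
  ∀ (f : L2 N) (w : N), (app A f).1 w = ∑' w' : {w' // R w w'}, f.1 w'

/-- New spectrum of the covering, with multiplicity. -/
noncomputable def newSpec [Fintype V] [Fintype E] [DecidableEq V] {r : ℕ}
    (σ : E × Bool → Perm (Fin r)) : Multiset ℝ :=
  (adjH s t σ).charpoly.roots - (adjG s t).charpoly.roots

lemma rr (a : E × Bool) : rev (rev a) = a := by simp [rev]

lemma nb_tail {o : V} : ∀ {w}, NB s t o w → NB s t o w.tail
  | [], h => h
  | _ :: _, h => h.1

open Classical in
noncomputable def st (o : V) (w : T s t o) (a : E × Bool) : T s t o :=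
  if w.1.head? = some (rev a) then ⟨w.1.tail, nb_tail s t w.2⟩
  else if h : NB s t o (a :: w.1) then ⟨_, h⟩ else w

lemma st_cases {o : V} (w : T s t o) (a : E × Bool) (h : tail s t a = endp s t o w.1) :
    w.1 = rev a :: (st s t o w a).1 ∨
      w.1.head? ≠ some (rev a) ∧ (st s t o w a).1 = a :: w.1 := by
  unfold st
  split_ifs with b c
  · exact .inl (List.cons_head?_tail b).symm
  · exact .inr ⟨b, rfl⟩
  · exact absurd ⟨w.2, h, b⟩ c

lemma st_down {o : V} {w w' : T s t o} {a : E × Bool} (h : w.1 = a :: w'.1) :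
    st s t o w (rev a) = w' := Subtype.ext (by simp [st, h, rr])

lemma st_up {o : V} {w w' : T s t o} {a : E × Bool} (h : w'.1 = a :: w.1) :
    tail s t a = endp s t o w.1 ∧ st s t o w a = w' := by
  have := h ▸ w'.2
  exact ⟨this.2.1, Subtype.ext (by rw [st, if_neg this.2.2, dif_pos this, h])⟩

open Pool.Agent.H.MP_eaea0b_co in
theorem result (V E : Type) [Fintype V] [DecidableEq V] [Fintype E] (s t : E → V)
    (hc : ∀ u v, Relation.ReflTransGen (fun x y => ∃ a, tail s t a = x ∧ head s t a = y) u v)
    (o : V) (r : ℕ) (hr : 2 ≤ r) :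
    ∃ A : Op (L2 (T s t o)), IsAdjOp (TAdj s t o) A ∧
      ∃ σ : E × Bool → Perm (Fin r), (∀ a, σ (rev a) = (σ a)⁻¹) ∧
        ∀ μ ∈ newSpec s t σ, ENNReal.ofReal μ ≤ rad A := by
  classical
  unfold IsAdjOp app rad newSpec
  obtain ⟨d, rfl⟩ : ∃ d, r = d + 1 := ⟨r - 1, by omega⟩
  have h1 : ∀ (w : T s t o) a, tail s t a = endp s t o w.1 →
      endp s t o (st s t o w a).1 = head s t a := fun w a h => by
    rcases st_cases s t w a h with e | e
    · exact (st_up s t e).1.symm
    · rw [e.2]; rfl
  have h2 : ∀ (w : T s t o) a, tail s t a = endp s t o w.1 →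
      st s t o (st s t o w a) (rev a) = w := fun w a h =>
    (st_cases s t w a h).elim (fun e => (st_up s t e).2) fun e => st_down s t e.2
  obtain ⟨A, hA⟩ := exA (tail s t) (fun w : T s t o => endp s t o w.1) (st s t o) h2
  refine ⟨A, fun f w => ?_, ?_⟩
  · have : {w' | TAdj s t o w w'} = ((univ.filter fun a => tail s t a = endp s t o w.1).image
        (st s t o w) : Finset _) := by
      ext w'
      simp only [Set.mem_setOf_eq, coe_image, coe_filter, mem_univ, true_and, Set.mem_image]
      refine ⟨?_, ?_⟩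
      · rintro ⟨a, e | e⟩
        · exact ⟨a, st_up s t e⟩
        · exact ⟨rev a, by rw [e]; rfl, st_down s t e⟩
      · rintro ⟨a, h, rfl⟩
        exact (st_cases s t w a h).elim (fun e => ⟨_, .inr e⟩) fun e => ⟨_, .inl e.2⟩
    rw [hA]
    refine .symm ((tsum_congr_set_coe f this).trans ((Finset.tsum_subtype' _ _).trans
      (sum_image fun a ha b hb e => ?_)))
    rcases st_cases s t w a (by simpa using ha) with x | ⟨-, x⟩ <;>
      rcases st_cases s t w b (by simpa using hb) with y | ⟨-, y⟩
    · rw [← rr a, ← rr b, (List.cons.inj (x.symm.trans y)).1]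
    · have := congrArg List.length (x.trans (by rw [e, y])); simp at this; omega
    · have := congrArg List.length (y.trans (by rw [← e, x])); simp at this; omega
    · exact (List.cons.inj (x.symm.trans (e ▸ y))).1
  have fin : spectralRadius ℂ A ≠ ⊤ := ((spectrum.spectralRadius_le_pow_nnnorm_pow_one_div ℂ A
    0).trans_lt (by simp [ENNReal.mul_lt_top])).ne
  obtain ⟨σ, p, p0, hp⟩ := lifts (d := d) s t (spectralRadius ℂ A).toReal fun x hx => by
    obtain ⟨f, f0, hf⟩ := exF (tail s t) _ _ hA ⟨[], trivial⟩ (fun P a b ⟨w, h⟩ => by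
      induction w with
      | nil => exact a
      | cons c w ih =>
        refine b _ (rev c) rfl ?_
        rw [st_down s t (w' := ⟨w, h.1⟩) rfl]
        exact ih h.1) ((ENNReal.lt_ofReal_iff_toReal_lt fin).2 hx)
    refine signed (tail s t) _ (fun v => ?_) (st s t o) f x f0 h1 h2 hf
    induction hc o v with
    | refl => exact ⟨⟨[], trivial⟩, rfl⟩
    | tail _ e ih =>
      obtain ⟨a, rfl, rfl⟩ := e
      obtain ⟨w, hw⟩ := ih
      exact ⟨_, h1 w a hw.symm⟩
  refine ⟨fun a => if a.2 then σ a.1 else (σ a.1)⁻¹, fun ⟨e, b⟩ => by cases b <;> simp [rev],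
    fun μ m => ?_⟩
  have e1 : adjH s t (fun a => if a.2 then σ a.1 else (σ a.1)⁻¹) =
      lf s t (fun e => (σ e).permMatrix ℝ) fun e => (σ e)⁻¹.permMatrix ℝ := by
    ext u v
    simp only [adjH, lf_apply, of_apply, sum_filter, Fintype.sum_prod_type, Fintype.sum_bool,
      tail, head, rev, eq_comm (b := u.1), eq_comm (b := v.1)]
    rfl
  have e2 : reindex (Equiv.prodPUnit V) (Equiv.prodPUnit V)
      (lf s t (fun _ => (1 : Matrix Unit Unit ℝ)) fun _ => 1) = adjG s t := by
    ext u v
    simp only [adjG, reindex_apply, submatrix_apply, lf_apply, of_apply, card_filter, Nat.cast_sum,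
      Fintype.sum_prod_type, Fintype.sum_bool, tail, head, rev, eq_comm (b := u), eq_comm (b := v),
      Nat.cast_add, Nat.cast_ite, Nat.cast_one, Nat.cast_zero]
    rfl
  rw [e1, hp, ← e2, charpoly_reindex, Polynomial.roots_mul (hp ▸ (charpoly_monic _).ne_zero),
    add_tsub_cancel_left] at m
  refine ENNReal.ofReal_le_of_le_toReal (le_of_not_gt fun l => ?_)
  exact (p0 μ l).ne' (Polynomial.isRoot_of_mem_roots m)

end Pool.Agent.Results.MP_eaea0b_co.Yes
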